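import Pool.Agent.H559Z.BogDefs
import Pool.Agent.H559Z.BogMain

/-!
The Bogomolov property is not inherited by finite extensions, even Galois over the rationals and
with finitely many new torsion points.

`F` is generated by all roots of the polynomials `X^m (2X+1) + (X+2)`, `m = 6j+2`; all these roots
lie on the unit circle, so complex conjugation is a central involution of the Galois group of `F`,
and `F₀` is its totally real fixed field. Inertia groups act on the roots with orbits of size at
most three, so `F` holds only finitely many roots of unity, while non-integral roots have height
at most `4 log 2 / (6j)`.
-/

set_option autoImplicit false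

namespace Pool.Agent.Results.MP_d03a5a_nt.Counterexample

open Pool.Agent.H559Z

/-- With base field the rationals and the multiplicative group: there are fields `F₀ ≤ F` of
algebraic numbers such that `F₀` has the Bogomolov property, `F / F₀` is finite, `F` is Galois over
the rationals, only finitely many roots of unity of `F` lie outside `F₀`, and `F` does not have the
Bogomolov property. -/
theorem result : ∃ (F₀ F : IntermediateField ℚ (AlgebraicClosure ℚ)) (h : F₀ ≤ F),
    HasBogomolov F₀ ∧ FiniteDimensional F₀ (IntermediateField.extendScalars h) ∧ IsGalois ℚ F ∧
    (torsionPts F \ torsionPts F₀).Finite ∧ ¬ HasBogomolov F :=
  Pool.Agent.H559Z.main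

end Pool.Agent.Results.MP_d03a5a_nt.Counterexample
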